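import Mathlib

set_option autoImplicit false

/-!
Birkhoff-James orthogonality, the Bhatia-Semrl property, approximation by compact operators.
-/

namespace Pool.Agent.Lib.MP_43cf21_an

/-- Birkhoff-James orthogonality in a real normed space. -/
def BJOrth {Z : Type*} [NormedAddCommGroup Z] [NormedSpace ℝ Z] (u v : Z) : Prop :=
  ∀ t : ℝ, ‖u‖ ≤ ‖u + t • v‖

/-- The Bhatia-Semrl property of a bounded operator. -/
def BhatiaSemrl {X Y : Type*} [NormedAddCommGroup X] [NormedSpace ℝ X] [NormedAddCommGroup Y]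
    [NormedSpace ℝ Y] (T : X →L[ℝ] Y) : Prop :=
  ∀ A : X →L[ℝ] Y, BJOrth T A → ∃ x : X, ‖x‖ = 1 ∧ ‖T x‖ = ‖T‖ ∧ BJOrth (T x) (A x)

/-- An operator is approximated uniformly on compact sets by compact operators. -/
def CompactApprox {X : Type*} [NormedAddCommGroup X] [NormedSpace ℝ X] (A : X →L[ℝ] X) : Prop :=
  ∀ Q : Set X, IsCompact Q → ∀ ε : ℝ, 0 < ε →
    ∃ K : X →L[ℝ] X, IsCompactOperator K ∧ ∀ x ∈ Q, ‖A x - K x‖ ≤ ε

end Pool.Agent.Lib.MP_43cf21_an
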