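import Pool.Agent.Lib.MP_43cf21_an.Main

set_option autoImplicit false

/-!
If every operator attains the supremum of its numerical range, the algebra of operators is
reflexive.
-/

namespace Pool.Agent.Lib.MP_43cf21_an

open Set Filter Topology

/-- The identity is an extreme point of the unit ball of the operators. -/
lemma eq_zero_of_contr {E : Type*} [NormedAddCommGroup E] [NormedSpace ℝ E] (b : E →L[ℝ] E)
    (h1 : ∀ x, ‖x - b x‖ ≤ ‖x‖) (h2 : ∀ x, ‖x + b x‖ ≤ ‖x‖) (x : E) : b x = 0 := by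
  have h3 : ∀ (n : ℕ) (s : ℝ) (x : E), ‖s • x + (n : ℝ) • b x‖ ≤ √(s ^ 2 + n) * ‖x‖ := by
    intro n
    induction n with
    | zero =>
      intro s x
      simp [norm_smul, Real.sqrt_sq_eq_abs]
    | succ n ih =>
      intro s x
      have h4 : s • x + ((n + 1 : ℕ) : ℝ) • b x =
          (1 / 2 : ℝ) • ((s + 1) • (x + b x) + (n : ℝ) • b (x + b x)) +
          (1 / 2 : ℝ) • ((s - 1) • (x - b x) + (n : ℝ) • b (x - b x)) := by
        simp only [map_add, map_sub, Nat.cast_succ]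
        module
      have h6 := (ih (s + 1) _).trans (mul_le_mul_of_nonneg_left (h2 x) (Real.sqrt_nonneg _))
      have h7 := (ih (s - 1) _).trans (mul_le_mul_of_nonneg_left (h1 x) (Real.sqrt_nonneg _))
      have h8 : 1 / 2 * √((s + 1) ^ 2 + n) + 1 / 2 * √((s - 1) ^ 2 + n) ≤
          √(s ^ 2 + (n + 1 : ℕ)) := by
        refine Real.le_sqrt_of_sq_le ?_
        have e1 := Real.sq_sqrt (show 0 ≤ (s + 1) ^ 2 + n by positivity)
        have e2 := Real.sq_sqrt (show 0 ≤ (s - 1) ^ 2 + n by positivity)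
        push_cast
        nlinarith [sq_nonneg (√((s + 1) ^ 2 + n) - √((s - 1) ^ 2 + n))]
      have h9 := mul_le_mul_of_nonneg_right h8 (norm_nonneg x)
      rw [h4]
      refine (norm_add_le _ _).trans ?_
      rw [norm_smul, norm_smul, Real.norm_of_nonneg (by norm_num)]
      linarith
  by_contra hne
  have h5 : 0 < ‖b x‖ := norm_pos_iff.2 hne
  obtain ⟨n, hn⟩ := exists_nat_gt ((‖x‖ / ‖b x‖) ^ 2)
  have h6 := h3 n 0 x
  rw [zero_smul, zero_add, norm_smul, Real.norm_natCast, sq, zero_mul, zero_add] at h6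
  have hn0 : (0 : ℝ) < n := (sq_nonneg _).trans_lt hn
  have h8 := Real.lt_sqrt_of_sq_lt hn
  rw [div_lt_iff₀ h5] at h8
  have h9 := Real.mul_self_sqrt hn0.le
  have h10 := mul_lt_mul_of_pos_left h8 (Real.sqrt_pos.2 hn0)
  rw [← mul_assoc, h9] at h10
  linarith

lemma ideal_zero {D ι : Type*} [NormedAddCommGroup D] [NormedSpace ℝ D] [CompleteSpace D]
    (R : ι → D →L[ℝ] D) (E : Set D) (hd : ∀ L : D →L[ℝ] D, (∀ a φ, L (R a φ) = R a (L φ)) →
      (∀ φ ∈ E, L φ = 0) → ∀ φ, ‖φ‖ ≤ ‖φ - L φ‖) (L : D →L[ℝ] D)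
    (hc : ∀ a φ, L (R a φ) = R a (L φ)) (h0 : ∀ φ ∈ E, L φ = 0) (φ : D) : L φ = 0 := by
  have hup : ∀ b : D →L[ℝ] D, (∀ a φ, b (R a φ) = R a (b φ)) →
      (∀ φ ∈ E, b φ = 0) → ‖b‖ < 1 → ∀ φ, ‖φ - b φ‖ ≤ ‖φ‖ := fun b hc h0 hb φ => by
    let u := Units.oneSub b hb
    have e2 : ∀ φ, (↑u⁻¹ : D →L[ℝ] D) (φ - b φ) = φ := fun φ => DFunLike.congr_fun u.inv_mul φ
    have e3 : ∀ a, Commute (↑u⁻¹ : D →L[ℝ] D) (R a) := fun a => Commute.units_inv_left
      ((Commute.one_left _).sub_left (ContinuousLinearMap.ext (hc a)))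
    have := hd (1 - ↑u⁻¹) (fun a => DFunLike.congr_fun
      ((Commute.one_left _).sub_left (e3 a)).eq) (fun ψ hψ => by
        have := e2 ψ
        rw [h0 ψ hψ, sub_zero] at this
        simp [this]) (φ - b φ)
    rwa [ContinuousLinearMap.sub_apply, ContinuousLinearMap.one_apply, sub_sub_cancel, e2] at this
  have h2 : ∀ t : ℝ, |t| = (‖L‖ + 1)⁻¹ → ∀ φ, ‖φ - (t • L) φ‖ ≤ ‖φ‖ := fun t ht =>
    hup _ (fun a φ => by simp [hc]) (fun φ hφ => by simp [h0 φ hφ]) (by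
      rw [norm_smul, Real.norm_eq_abs, ht, inv_mul_lt_iff₀ (by positivity)]; linarith)
  have h3 : 0 < (‖L‖ + 1)⁻¹ := by positivity
  have h4 := eq_zero_of_contr _ (h2 _ (abs_of_pos h3)) (fun φ => by
    simpa using h2 (-(‖L‖ + 1)⁻¹) (by rw [abs_neg, abs_of_pos h3]) φ) φ
  rw [ContinuousLinearMap.smul_apply, smul_eq_zero] at h4
  exact h4.resolve_left h3.ne'

section Alg

variable {W : Type*} [NormedRing W] [NormedAlgebra ℝ W]

/-- The action of the algebra on its dual. -/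
noncomputable def act : W →L[ℝ] StrongDual ℝ W →L[ℝ] StrongDual ℝ W :=
  (ContinuousLinearMap.compL ℝ W W ℝ).flip.comp (ContinuousLinearMap.mul ℝ W)

@[simp] lemma act_apply (a c : W) (φ : StrongDual ℝ W) : act a φ c = φ (a * c) := rfl

lemma act_norm {a : W} (ha : ‖a‖ ≤ 1) {φ : StrongDual ℝ W} (h : ‖φ‖ ≤ 1) : ‖act a φ‖ ≤ 1 :=
  ContinuousLinearMap.opNorm_le_bound _ zero_le_one fun c => (φ.le_of_opNorm_le h _).trans
    (mul_le_mul_of_nonneg_left ((norm_mul_le _ _).trans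
      (mul_le_of_le_one_left (norm_nonneg _) ha)) zero_le_one)

variable {E : Set (StrongDual ℝ W)}

lemma dissip (h1 : ‖(1 : W)‖ ≤ 1) (hE : ∀ u : ℝ, 0 < u → u ≤ 1 / 2 → ∀ φ : StrongDual ℝ W,
    ‖φ‖ ≤ 1 → 1 - u ^ 2 ≤ φ 1 → ∃ ψ ∈ E, ‖φ - ψ‖ ≤ 5 * u)
    {L : StrongDual ℝ W →L[ℝ] StrongDual ℝ W} (hc : ∀ a φ, L (act a φ) = act a (L φ))
    (h0 : ∀ φ ∈ E, L φ = 0) (φ : StrongDual ℝ W) : ‖φ‖ ≤ ‖φ - L φ‖ := by
  have key : ∀ φ : StrongDual ℝ W, ‖φ‖ = 1 → 1 ≤ ‖φ - L φ‖ := fun φ hφ => by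
    refine le_of_forall_pos_le_add fun ε hε => ?_
    set M := ‖L‖ + 1 with hM
    have hM0 : 0 < M := by positivity
    set u := min (1 / 2) (ε / (5 * M)) with hu
    have hu0 : 0 < u := lt_min (by norm_num) (by positivity)
    have hu1 : 5 * M * u ≤ ε := by rw [← le_div_iff₀' (by positivity)]; exact min_le_right _ _
    set t := u ^ 2 / M with ht
    have ht0 : 0 < t := by positivity
    have e : ∀ ξ : StrongDual ℝ W, |L ξ 1| ≤ M * ‖ξ‖ := fun ξ =>
      ((L ξ).unit_le_opNorm _ h1).trans ((L.le_opNorm ξ).trans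
        (mul_le_mul_of_nonneg_right (by linarith) (norm_nonneg _)))
    have h2 : ∀ a : W, ‖a‖ ≤ 1 → (φ + t • L φ) a ≤ 1 + t * ε := fun a ha => by
      have a1 := act_norm ha hφ.le
      have a2 : (φ + t • L φ) a = act a φ 1 + t * L (act a φ) 1 := by
        simp [hc]
      have a3 : act a φ 1 ≤ 1 := (le_abs_self _).trans (((act a φ).unit_le_opNorm _ h1).trans a1)
      rw [a2]
      by_cases h : 1 - u ^ 2 ≤ act a φ 1
      · obtain ⟨ψ, b1, b2⟩ := hE u hu0 (min_le_left _ _) _ a1 h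
        have b3 := (le_abs_self _).trans (e (act a φ - ψ))
        rw [map_sub, h0 ψ b1, sub_zero] at b3
        have b4 := mul_le_mul_of_nonneg_left b2 hM0.le
        nlinarith
      · have b3 := (le_abs_self _).trans ((e (act a φ)).trans (mul_le_of_le_one_right hM0.le a1))
        have b4 : t * M = u ^ 2 := div_mul_cancel₀ _ hM0.ne'
        nlinarith [mul_pos ht0 hε]
    have h3 : ‖φ + t • L φ‖ ≤ 1 + t * ε :=
      ContinuousLinearMap.opNorm_le_of_unit_norm (by positivity) fun a ha => abs_le.2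
        ⟨by have := h2 (-a) (by simp [ha]); rw [map_neg] at this; linarith, h2 a ha.le⟩
    have h4 : (1 + t) • φ = (φ + t • L φ) + t • (φ - L φ) := by module
    have h5 := norm_add_le (φ + t • L φ) (t • (φ - L φ))
    rw [← h4, norm_smul, norm_smul, hφ, Real.norm_of_nonneg ht0.le,
      Real.norm_of_nonneg (by positivity)] at h5
    exact le_of_mul_le_mul_left (by linarith) ht0
  rcases eq_or_ne φ 0 with rfl | h
  · simp
  have := key _ (norm_smul_inv_norm (𝕜 := ℝ) h)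
  rw [map_smul, ← smul_sub, norm_smul, norm_inv, RCLike.norm_ofReal, abs_norm,
    le_inv_mul_iff₀ (norm_pos_iff.2 h), mul_one] at this
  exact this

theorem ann_zero (h1 : ‖(1 : W)‖ ≤ 1) (hA : ∀ a, ∀ φ ∈ E, act a φ ∈ E)
    (hE : ∀ u : ℝ, 0 < u → u ≤ 1 / 2 → ∀ φ : StrongDual ℝ W,
      ‖φ‖ ≤ 1 → 1 - u ^ 2 ≤ φ 1 → ∃ ψ ∈ E, ‖φ - ψ‖ ≤ 5 * u)
    (F : StrongDual ℝ W →L[ℝ] ℝ) (hF : ∀ φ ∈ E, F φ = 0) (φ : StrongDual ℝ W) : F φ = 0 := by
  let L : StrongDual ℝ W →L[ℝ] StrongDual ℝ W :=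
    ((ContinuousLinearMap.compL ℝ _ _ ℝ F).comp act).flip
  have hL : ∀ φ a, L φ a = F (act a φ) := fun _ _ => rfl
  have h4 := ideal_zero (fun a : W => act a) E (fun L => dissip h1 hE) L (fun a φ => by
    ext c
    change F (act c (act a φ)) = F (act (a * c) φ)
    congr 1
    ext d
    simp [mul_assoc]) (fun φ hφ => by
      ext a
      exact hF _ (hA a φ hφ)) φ
  have h5 := hL φ 1
  rw [h4, show act 1 φ = φ by ext; simp] at h5
  exact h5.symm

end Alg

variable {X : Type*} [NormedAddCommGroup X] [NormedSpace ℝ X]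

lemma norm_one_add_le {A : X →L[ℝ] X} (hA : ‖A‖ ≤ 1) {s t : ℝ} (hs1 : |s| ≤ 1)
    (hs : ∀ b : NR X, b.1.2 (A b.1.1) ≤ s) (ht : 0 < t) (ht1 : t ≤ 1 / 2) :
    ‖1 + t • A‖ ≤ 1 + t * s + 4 * t ^ 2 := by
  rw [abs_le] at hs1
  have h3 : ∀ y, (1 - t * s) * ‖y‖ ≤ ‖y - t • A y‖ := by
    intro y
    rcases eq_or_ne y 0 with rfl | hy
    · simp
    obtain ⟨a, ha⟩ := NR.exists (x := ‖y‖⁻¹ • y) (norm_smul_inv_norm hy)
    have h4 : y = ‖y‖ • a.1.1 := by rw [ha, smul_inv_smul₀ (norm_ne_zero_iff.2 hy)]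
    refine le_trans ?_ ((le_abs_self _).trans (a.abs_le _))
    have h5 : a.1.2 (y - t • A y) = ‖y‖ * (1 - t * a.1.2 (A a.1.1)) := by
      conv_lhs => rw [h4]
      simp only [map_sub, map_smul, smul_eq_mul, a.2.2.2]
      ring
    rw [h5, mul_comm]
    exact mul_le_mul_of_nonneg_left (by nlinarith [hs a]) (norm_nonneg _)
  refine ContinuousLinearMap.opNorm_le_of_unit_norm (by nlinarith) fun y hy => ?_
  have h6 : (1 + t • A) y - t • A ((1 + t • A) y) = y - t ^ 2 • A (A y) := by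
    simp only [ContinuousLinearMap.add_apply, ContinuousLinearMap.smul_apply,
      ContinuousLinearMap.one_apply, map_add, map_smul]
    module
  have h7 := h3 ((1 + t • A) y)
  have h8 : ‖A (A y)‖ ≤ 1 :=
    (A.unit_le_opNorm _ ((A.unit_le_opNorm y hy.le).trans hA)).trans hA
  have h9 := norm_sub_le y (t ^ 2 • A (A y))
  rw [norm_smul, Real.norm_of_nonneg (by positivity), hy] at h9
  rw [h6] at h7
  have h10 : 0 < 1 - t * s := by nlinarith
  refine le_of_mul_le_mul_left (h7.trans (h9.trans ?_)) h10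
  have h11 := mul_le_mul_of_nonneg_left h8 (sq_nonneg t)
  have h12 : s ^ 2 ≤ 1 := by nlinarith
  have h13 := mul_le_mul_of_nonneg_left h12 (sq_nonneg t)
  have h14 := mul_le_mul_of_nonneg_left (show t * s ≤ 1 / 2 by nlinarith) (sq_nonneg t)
  nlinarith

theorem near_tenE [CompleteSpace X] (h : Att X) (u : ℝ) (hu : 0 < u) (hu1 : u ≤ 1 / 2)
    (φ : StrongDual ℝ (X →L[ℝ] X)) (h1 : ‖φ‖ ≤ 1) (h2 : 1 - u ^ 2 ≤ φ 1) :
    ∃ ψ ∈ (tenE X : Set (StrongDual ℝ (X →L[ℝ] X))), ‖φ - ψ‖ ≤ 5 * u := by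
  choose a ha using h
  set p : (X →L[ℝ] X) → ℝ := fun A => (a A).1.2 (A (a A).1.1) with hp
  have p1 : ∀ c : ℝ, 0 < c → ∀ A, p (c • A) = c * p A := fun c hc A => le_antisymm
    (by simpa [hp] using mul_le_mul_of_nonneg_left (ha A (a (c • A))) hc.le)
    (by simpa [hp] using ha (c • A) (a A))
  have p2 : ∀ A B, p (A + B) ≤ p A + p B := fun A B => by
    simpa [hp] using add_le_add (ha A (a (A + B))) (ha B (a (A + B)))
  have p3 : ∀ A, φ A ≤ p A + 5 * u * ‖A‖ := fun A => by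
    rcases eq_or_ne A 0 with rfl | hA
    · simp [hp]
    have b0 := norm_pos_iff.2 hA
    have b1 : ‖‖A‖⁻¹ • A‖ = 1 := norm_smul_inv_norm hA
    have b2 := ((le_abs_self _).trans (φ.le_of_opNorm_le h1 _)).trans ((one_mul _).trans_le
      (norm_one_add_le b1.le (((a _).abs_le' _).trans b1.le) (ha _) hu hu1))
    change _ ≤ 1 + u * p (‖A‖⁻¹ • A) + _ at b2
    rw [p1 _ (inv_pos.2 b0), map_add, map_smul, map_smul, smul_eq_mul, smul_eq_mul] at b2
    have b3 : ‖A‖⁻¹ * φ A ≤ ‖A‖⁻¹ * p A + 5 * u := le_of_mul_le_mul_left (by nlinarith) hu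
    have b4 := mul_le_mul_of_nonneg_left b3 b0.le
    rw [mul_add, mul_inv_cancel_left₀ b0.ne', mul_inv_cancel_left₀ b0.ne'] at b4
    linarith
  obtain ⟨g, g1, g2⟩ := exists_extension_of_le_sublinear
    (((φ : (X →L[ℝ] X) →ₗ[ℝ] ℝ).comp (LinearMap.fst ℝ _ (X →L[ℝ] X))).toPMap
      (LinearMap.ker (LinearMap.fst ℝ _ _ - LinearMap.snd ℝ _ _)))
    (fun q => p q.1 + 5 * u * ‖q.2‖)
    (fun c hc q => by
      simp only [Prod.smul_fst, Prod.smul_snd, p1 c hc, norm_smul, Real.norm_of_nonneg hc.le]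
      ring)
    (fun q r => by
      have := mul_le_mul_of_nonneg_left (norm_add_le q.2 r.2) (show 0 ≤ 5 * u by positivity)
      simp only [Prod.fst_add, Prod.snd_add]
      linarith [p2 q.1 r.1])
    (fun q => by
      have : q.1.1 = q.1.2 := sub_eq_zero.1 q.2
      rw [← this]
      exact p3 _)
  have g3 : ∀ B, |g (0, B)| ≤ 5 * u * ‖B‖ := fun B => abs_le.2 ⟨by
    have := g2 (-(0, B))
    rw [map_neg] at this
    simp [hp] at this
    linarith, by simpa [hp] using g2 (0, B)⟩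
  let χ : StrongDual ℝ (X →L[ℝ] X) := (g.comp (LinearMap.inr ℝ _ _)).mkContinuous _ g3
  refine ⟨φ - χ, mem_tenE (fun A => ⟨a A, ha A⟩) _ fun A => ⟨a A, ?_⟩, ?_⟩
  · have b1 : g (A, A) = φ A := g1 ⟨(A, A), by simp⟩
    have b2 := g2 (A, 0)
    have b3 : g (A, A) = g (A, 0) + g (0, A) := by rw [← map_add]; simp
    change φ A - g (0, A) ≤ p A
    simp only [norm_zero, mul_zero, add_zero] at b2
    linarith
  · rw [sub_sub_cancel]
    exact LinearMap.mkContinuous_norm_le _ (by positivity) _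

theorem refl_op_of_att [CompleteSpace X] (h : Att X) :
    Function.Surjective (NormedSpace.inclusionInDoubleDual ℝ (X →L[ℝ] X)) := by
  intro G
  obtain ⟨A, hA⟩ := exists_op (refl_of_att h) ((ContinuousLinearMap.compL ℝ _ _ ℝ G).comp ten)
  refine ⟨A, ContinuousLinearMap.ext fun φ => sub_eq_zero.1 ?_⟩
  have hc : ∀ {S : Submodule ℝ (StrongDual ℝ (X →L[ℝ] X))},
      IsClosed (S : Set (StrongDual ℝ (X →L[ℝ] X))) → (∀ x g, ten x g ∈ S) → tenE X ≤ S :=
    fun hS h => Submodule.topologicalClosure_minimal _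
      (Submodule.span_le.2 (by rintro _ ⟨q, rfl⟩; exact h _ _)) hS
  refine ann_zero (E := tenE X) ContinuousLinearMap.norm_id_le (fun a => ?_) (near_tenE h)
    (NormedSpace.inclusionInDoubleDual ℝ (X →L[ℝ] X) A - G) ?_ φ
  · exact hc (S := (tenE X).comap (act a : _ →L[ℝ] _).toLinearMap)
      ((Submodule.isClosed_topologicalClosure _).preimage (act a).continuous)
      fun x g => ten_mem x (g.comp a)
  · exact hc (S := LinearMap.ker
      (NormedSpace.inclusionInDoubleDual ℝ (X →L[ℝ] X) A - G).toLinearMap)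
      (ContinuousLinearMap.isClosed_ker _) fun x g => sub_eq_zero.2 (hA x g)

end Pool.Agent.Lib.MP_43cf21_an
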