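import Mathlib

set_option autoImplicit false

/-!
The James theorem in an abstract form (Simons inequality and the Pryce subsequence lemma).
-/

namespace Pool.Agent.Lib.MP_43cf21_an

open Set Filter Topology

variable {W : Type*} [NormedAddCommGroup W] [NormedSpace ℝ W]

theorem simons_core [CompleteSpace W] (σ : W → ℝ) (C : ℕ → Set W) (hcl : ∀ k, IsClosed (C k))
    (hcv : ∀ k, Convex ℝ (C k)) (hne : ∀ k, (C k).Nonempty) (hanti : ∀ k, C (k + 1) ⊆ C k)
    (hM : ∀ k, ∀ g ∈ C k, ‖g‖ ≤ 1) (b : ℝ) (hb : ∀ u, b ≤ σ u) {δ : ℝ} (hδ : 0 < δ) :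
    ∃ r : ℕ → W, (∀ k, r k ∈ C k) ∧ ∀ (l : W →L[ℝ] ℝ) (c : ℝ), (∀ u ∈ C 0, l u - c ≤ σ u) →
      σ (r 0) ≤ l (r 0) - c → ∀ k, l (r 0) - δ ≤ l (r k) := by
  have hchoice : ∀ (k : ℕ) (u : W), ∃ g ∈ C k, ∀ g' ∈ C k,
      σ (u + ((1 / 2 : ℝ) ^ k) • g) ≤
        σ (u + ((1 / 2 : ℝ) ^ k) • g') + δ * (1 / 2) ^ k * (1 / 2) ^ (k + 1) := by
    intro k u
    let A : Set ℝ := (fun g => σ (u + ((1 / 2 : ℝ) ^ k) • g)) '' C k
    have hA : A.Nonempty := (hne k).image _
    have hAb : BddBelow A := ⟨b, by rintro _ ⟨g, -, rfl⟩; exact hb _⟩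
    have hpos : 0 < δ * (1 / 2 : ℝ) ^ k * (1 / 2) ^ (k + 1) := by positivity
    obtain ⟨_, ⟨g, hg, rfl⟩, hlt⟩ := exists_lt_of_csInf_lt hA (lt_add_of_pos_right (sInf A) hpos)
    exact ⟨g, hg, fun g' hg' => hlt.le.trans (add_le_add (csInf_le hAb ⟨g', hg', rfl⟩) le_rfl)⟩
  choose G hGC hG using hchoice
  let v : ℕ → W := fun n => Nat.rec 0 (fun k u => u + ((1 / 2 : ℝ) ^ (k + 1)) • G k u) n
  let g : ℕ → W := fun k => G k (v k)
  have hv0 : v 0 = 0 := rfl
  have hvs : ∀ k, v (k + 1) = v k + ((1 / 2 : ℝ) ^ (k + 1)) • g k := fun k => rfl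
  have hgC : ∀ k, g k ∈ C k := fun k => hGC k _
  have hcauchy : CauchySeq v := by
    refine cauchySeq_of_le_geometric (1 / 2) (1 / 2) (by norm_num) fun n => ?_
    rw [dist_comm, dist_eq_norm, hvs, add_sub_cancel_left, norm_smul,
      Real.norm_of_nonneg (by positivity), pow_succ]
    have := hM n _ (hgC n)
    have h2 : (0 : ℝ) ≤ (1 / 2) ^ n := by positivity
    nlinarith
  obtain ⟨w, hw⟩ := cauchySeq_tendsto_of_complete hcauchy
  let r : ℕ → W := fun k => ((2 : ℝ) ^ k) • (w - v k)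
  have hback : ∀ k n, ∀ h ∈ C (k + n),
      ((2 : ℝ) ^ k) • (v (k + n) - v k) + ((1 / 2 : ℝ) ^ n) • h ∈ C k := by
    intro k n
    induction n with
    | zero => intro h hh; simpa using hh
    | succ n ih =>
      intro h hh
      have hmid : (1 / 2 : ℝ) • g (k + n) + (1 / 2 : ℝ) • h ∈ C (k + n) :=
        hcv _ (hgC _) (hanti _ hh) (by norm_num) (by norm_num) (by norm_num)
      have := ih _ hmid
      convert this using 1
      have hk : (2 : ℝ) ^ k * (1 / 2) ^ (k + n + 1) = (1 / 2) ^ n * (1 / 2) := by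
        rw [add_assoc, pow_add, ← mul_assoc, ← mul_pow]
        norm_num
        rw [pow_succ]
      rw [← add_assoc k n 1, hvs, add_sub_right_comm, smul_add, smul_smul, hk, pow_succ]
      module
  have hrC : ∀ k, r k ∈ C k := by
    intro k
    have h1 : Tendsto (fun n => v (k + n)) atTop (𝓝 w) :=
      hw.comp (tendsto_atTop_mono (fun n => Nat.le_add_left n k) tendsto_id)
    have h2 : Tendsto (fun n => ((1 / 2 : ℝ) ^ n) • g (k + n)) atTop (𝓝 0) := by
      refine squeeze_zero_norm (a := fun n => (1 / 2 : ℝ) ^ n * 1) (fun n => ?_) ?_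
      · rw [norm_smul, Real.norm_of_nonneg (by positivity)]
        exact mul_le_mul_of_nonneg_left (hM _ _ (hgC _)) (by positivity)
      · simpa using (tendsto_pow_atTop_nhds_zero_of_lt_one (r := (1 / 2 : ℝ)) (by norm_num)
          (by norm_num))
    have h3 := ((h1.sub_const (v k)).const_smul ((2 : ℝ) ^ k)).add h2
    rw [add_zero] at h3
    exact (hcl k).mem_of_tendsto h3 (Eventually.of_forall fun n => hback k n _ (hgC _))
  have hr0 : r 0 = w := by simp [r, hv0]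
  refine ⟨r, hrC, fun l c hl hσ k => ?_⟩
  rw [hr0] at hσ ⊢
  have hpow : ∀ j : ℕ, (2 : ℝ) ^ j * (1 / 2) ^ j = 1 := fun j => by
    rw [← mul_pow]; norm_num
  have hstep : ∀ j, l (r j) - δ * (1 / 2) ^ (j + 1) ≤ l (r (j + 1)) := by
    intro j
    have h1 := hG j (v j) (r j) (hrC j)
    have h2 : v j + ((1 / 2 : ℝ) ^ j) • r j = w := by
      simp only [r, smul_smul]
      rw [mul_comm, hpow, one_smul, add_sub_cancel]
    rw [h2] at h1
    have h0 : v j + ((1 / 2 : ℝ) ^ j) • g j ∈ C 0 := by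
      have := hback 0 j (g j) (by simpa using hgC j)
      simpa [hv0] using this
    have h3 := (hl _ h0).trans h1
    have h4 : l (r j) = 2 ^ j * (l w - l (v j)) := by simp [r]
    have h5 : l (r (j + 1)) =
        2 ^ (j + 1) * (l w - (l (v j) + (1 / 2) ^ (j + 1) * l (g j))) := by
      simp [r, hvs]
    have h6 : l (v j) + (1 / 2) ^ j * l (g j) ≤ l w + δ * (1 / 2) ^ j * (1 / 2) ^ (j + 1) := by
      rw [map_add, map_smul, smul_eq_mul] at h3
      linarith
    have h7 : l (g j) ≤ l (r j) + δ * (1 / 2) ^ (j + 1) := by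
      have h8 := mul_le_mul_of_nonneg_left h6 (show (0 : ℝ) ≤ 2 ^ j by positivity)
      have e1 : (2 : ℝ) ^ j * (l (v j) + (1 / 2) ^ j * l (g j)) = 2 ^ j * l (v j) + l (g j) := by
        rw [mul_add, ← mul_assoc, hpow, one_mul]
      have e2 : (2 : ℝ) ^ j * (l w + δ * (1 / 2) ^ j * (1 / 2) ^ (j + 1)) =
          2 ^ j * l w + δ * (1 / 2) ^ (j + 1) := by
        have : (2 : ℝ) ^ j * (δ * (1 / 2) ^ j * (1 / 2) ^ (j + 1)) =
            δ * (2 ^ j * (1 / 2) ^ j) * (1 / 2) ^ (j + 1) := by ring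
        rw [mul_add, this, hpow, mul_one]
      rw [e1, e2] at h8
      rw [h4]
      linarith
    have e3 : l (r (j + 1)) = 2 * l (r j) - l (g j) := by
      rw [h5, h4]
      have := hpow (j + 1)
      have e4 : (2 : ℝ) ^ (j + 1) * (l w - (l (v j) + (1 / 2) ^ (j + 1) * l (g j))) =
          2 * (2 ^ j * (l w - l (v j))) - (2 ^ (j + 1) * (1 / 2) ^ (j + 1)) * l (g j) := by ring
      rw [e4, this, one_mul]
    linarith
  have hall : ∀ j, l w - δ * (1 - (1 / 2) ^ j) ≤ l (r j) := by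
    intro j
    induction j with
    | zero => simp [hr0]
    | succ j ih =>
      have := hstep j
      rw [pow_succ] at this ⊢
      linarith
  have h1 := hall k
  have h2 : 0 ≤ δ * (1 / 2 : ℝ) ^ k := by positivity
  linarith

lemma le_of_mem_closure_hull {s : Set W} (l : W →L[ℝ] ℝ) {c : ℝ} (h : ∀ x ∈ s, l x ≤ c) {u : W}
    (hu : u ∈ closure (convexHull ℝ s)) : l u ≤ c :=
  closure_minimal (t := {x | l x ≤ c})
    (convexHull_min h (convex_halfSpace_le (l : W →ₗ[ℝ] ℝ).isLinear c))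
    (isClosed_le l.continuous continuous_const) hu

lemma exists_liminf (x : ℕ → ℝ) (hx : ∀ j, |x j| ≤ 1) {N : Set ℕ} (hN : N.Infinite) :
    ∃ l : ℝ, |l| ≤ 1 ∧ (∀ ε > 0, {j ∈ N | x j < l + ε}.Infinite) ∧
      ∀ ε > 0, ∀ᶠ j in atTop, j ∈ N → l - ε < x j := by
  have hF : (atTop ⊓ 𝓟 N).NeBot := by
    rw [← Nat.cofinite_eq_atTop]
    exact cofinite_inf_principal_neBot_iff.2 hN
  have h1 : IsBoundedUnder (· ≥ ·) (atTop ⊓ 𝓟 N) x :=
    isBoundedUnder_of ⟨-1, fun j => (abs_le.1 (hx j)).1⟩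
  have h2 : IsBoundedUnder (· ≤ ·) (atTop ⊓ 𝓟 N) x :=
    isBoundedUnder_of ⟨1, fun j => (abs_le.1 (hx j)).2⟩
  refine ⟨liminf x (atTop ⊓ 𝓟 N), abs_le.2 ⟨?_, ?_⟩, fun ε hε => ?_, fun ε hε => ?_⟩
  · exact le_liminf_of_le h2.isCoboundedUnder_ge
      (Eventually.of_forall fun j => (abs_le.1 (hx j)).1)
  · exact liminf_le_of_frequently_le (Frequently.of_forall fun j => (abs_le.1 (hx j)).2) h1
  · have := frequently_lt_of_liminf_lt h2.isCoboundedUnder_ge (lt_add_of_pos_right _ hε)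
    rw [frequently_inf_principal, Nat.frequently_atTop_iff_infinite] at this
    exact this
  · have := eventually_lt_of_lt_liminf (sub_lt_self _ hε) h1
    rwa [eventually_inf_principal] at this

theorem james_core [CompleteSpace W] {A : Type*} (ev : A → W →L[ℝ] ℝ)
    (hev : ∀ a w, |ev a w| ≤ ‖w‖) (hatt : ∀ w, ∃ a, ∀ a', ev a' w ≤ ev a w)
    (hcl : ∀ r : ℕ → W, (∀ k, ‖r k‖ ≤ 1) → ∃ w, ∀ a,
      Tendsto (fun k => ev a (r k)) (hyperfilter ℕ) (𝓝 (ev a w)))
    (S : Set W) (hS : Convex ℝ S) (hS1 : ∀ f ∈ S, ‖f‖ ≤ 1) {θ : ℝ} (hθ : 0 < θ)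
    (h1 : ∀ f ∈ S, ∃ a, θ < ev a f)
    (h2 : ∀ F : Set A, F.Finite → ∃ f ∈ S, ∀ a ∈ F, ev a f = 0) : False := by
  classical
  have hA : Nonempty A := ⟨(hatt 0).choose⟩
  -- the sequence
  let St := {p : Set W × Set A // p.1.Finite ∧ p.1 ⊆ S ∧ p.2.Finite}
  have step : ∀ p : St, ∃ f ∈ S, (∀ a ∈ p.1.2, ev a f = 0) ∧ ∃ q : St, q.1.1 = insert f p.1.1 ∧
      p.1.2 ⊆ q.1.2 ∧ ∀ h ∈ convexHull ℝ q.1.1, ∃ a ∈ q.1.2, θ < ev a h := by
    rintro ⟨⟨T, F⟩, hT, hTS, hF⟩
    obtain ⟨f, hf, hf0⟩ := h2 F hF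
    have hTS' : insert f T ⊆ S := insert_subset hf hTS
    obtain ⟨t, ht⟩ := ((hT.insert f).isCompact_convexHull ℝ).elim_finite_subcover
      (fun a => {h | θ < ev a h}) (fun a => isOpen_lt continuous_const (ev a).continuous)
      (fun h hh => mem_iUnion.2 (h1 h (convexHull_min hTS' hS hh)))
    refine ⟨f, hf, hf0, ⟨(insert f T, F ∪ t), hT.insert f, hTS', hF.union t.finite_toSet⟩, rfl,
      subset_union_left, fun h hh => ?_⟩
    obtain ⟨a, ha, h3⟩ := mem_iUnion₂.1 (ht hh)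
    exact ⟨a, Or.inr ha, h3⟩
  choose Fn hFS hF0 Q hQ1 hQ2 hQ3 using step
  let P : ℕ → St := fun n => Q^[n] ⟨(∅, ∅), finite_empty, empty_subset _, finite_empty⟩
  have hP : ∀ n, P (n + 1) = Q (P n) := fun n => Function.iterate_succ_apply' _ _ _
  let f : ℕ → W := fun n => Fn (P n)
  have hf1 : ∀ n, ‖f n‖ ≤ 1 := fun n => hS1 _ (hFS _)
  have hm1 : Monotone fun n => (P n).1.1 := monotone_nat_of_le_succ fun n => by
    rw [hP, hQ1]; exact subset_insert _ _
  have hm2 : Monotone fun n => (P n).1.2 := monotone_nat_of_le_succ fun n => by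
    rw [hP]; exact hQ2 _
  have hK : ∀ h ∈ convexHull ℝ (range f), ∃ a, θ < ev a h ∧ ∀ᶠ j in atTop, ev a (f j) = 0 := by
    intro h hh
    have h3 : convexHull ℝ (range f) ⊆ ⋃ n, convexHull ℝ (P (n + 1)).1.1 := by
      refine convexHull_min ?_ (Directed.convex_iUnion ?_ fun n => convex_convexHull ℝ _)
      · rintro _ ⟨n, rfl⟩
        refine mem_iUnion.2 ⟨n, subset_convexHull ℝ _ ?_⟩
        rw [hP, hQ1]
        exact mem_insert _ _
      · exact Monotone.directed_le fun m n hmn => convexHull_mono (hm1 (Nat.succ_le_succ hmn))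
    obtain ⟨n, hn⟩ := mem_iUnion.1 (h3 hh)
    rw [hP] at hn
    obtain ⟨a, ha, h4⟩ := hQ3 _ h hn
    rw [← hP] at ha
    exact ⟨a, h4, (eventually_ge_atTop (n + 1)).mono fun j hj => hF0 _ a (hm2 hj ha)⟩
  -- lower limits along infinite sets
  choose lam hl1 hl2 hl3 using fun (N : {N : Set ℕ // N.Infinite}) (a : A) =>
    exists_liminf (fun j => ev a (f j)) (fun j => (hev a _).trans (hf1 j)) N.2
  obtain ⟨c, hc, hc'⟩ := ((countable_range f).isSeparable.span (R := ℝ)).closure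
  obtain ⟨d, hd⟩ := (hc.insert 0).exists_eq_range (insert_nonempty _ _)
  let hh : ℕ → W := fun i => d (Nat.unpair i).1
  let e : ℕ → ℝ := fun i => 1 / ((i : ℝ) + 1)
  have he : ∀ i, 0 < e i := fun i => Nat.one_div_pos_of_nat
  have hbdd : ∀ (u : W) (φ : A → ℝ), (∀ a, |φ a| ≤ 1) → BddAbove (range fun a => ev a u - φ a) :=
    fun u φ hφ => ⟨‖u‖ + 1, by
      rintro _ ⟨a, rfl⟩
      have := abs_le.1 (hev a u)
      have := abs_le.1 (hφ a)
      simp only
      linarith⟩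
  have step2 : ∀ (i : ℕ) (N : {N : Set ℕ // N.Infinite}), ∃ (a : A) (N' : {N : Set ℕ // N.Infinite}),
      N'.1 ⊆ N.1 ∧ (∀ j ∈ N'.1, i < j) ∧ (∀ j ∈ N'.1, ev a (f j) < lam N a + e i) ∧
      ∀ a', ev a' (hh i) - lam N a' ≤ ev a (hh i) - lam N a + e i := by
    intro i N
    obtain ⟨a, ha⟩ := exists_lt_of_lt_ciSup
      (sub_lt_self (⨆ a, (ev a (hh i) - lam N a)) (he i))
    refine ⟨a, ⟨{j ∈ N.1 | ev a (f j) < lam N a + e i} \ Iic i,
      (hl2 N a _ (he i)).sdiff (finite_Iic i)⟩, fun j hj => hj.1.1, fun j hj => not_le.1 hj.2,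
      fun j hj => hj.1.2, fun a' => ?_⟩
    have := le_ciSup (hbdd (hh i) _ (hl1 N)) a'
    linarith
  choose a₂ N₂ hN1 hN2 hN3 hN4 using step2
  let N : ℕ → {N : Set ℕ // N.Infinite} := fun n => Nat.rec ⟨univ, infinite_univ⟩ N₂ n
  have hNs : ∀ n, N (n + 1) = N₂ n (N n) := fun n => rfl
  have hNa : Antitone fun n => (N n).1 := antitone_nat_of_succ_le fun n => hN1 n _
  have hNg : ∀ k, ∀ j ∈ (N k).1, k ≤ j := by
    rintro (_ | k) j hj
    · exact Nat.zero_le _
    · exact hN2 k _ j hj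
  let φ : A → ℝ := fun a => ⨆ i, lam (N i) a
  have hφb : ∀ a, BddAbove (range fun i => lam (N i) a) := fun a =>
    ⟨1, by rintro _ ⟨i, rfl⟩; exact (abs_le.1 (hl1 _ a)).2⟩
  have hφ : ∀ a, |φ a| ≤ 1 := fun a => abs_le.2
    ⟨(abs_le.1 (hl1 (N 0) a)).1.trans (le_ciSup (hφb a) 0),
      ciSup_le fun i => (abs_le.1 (hl1 _ a)).2⟩
  let σ : W → ℝ := fun u => ⨆ a, (ev a u - φ a)
  let C : ℕ → Set W := fun k => closure (convexHull ℝ (f '' (N k).1))
  have hθσ : ∀ u ∈ C 0, θ ≤ σ u := by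
    intro u hu
    refine le_of_forall_pos_le_add fun η hη => ?_
    obtain ⟨h, hh1, hh2⟩ := Metric.mem_closure_iff.1 hu η hη
    obtain ⟨a, ha, ha0⟩ := hK h (convexHull_mono (image_subset_range _ _) hh1)
    have h3 : φ a ≤ 0 := ciSup_le fun i => le_of_forall_pos_le_add fun ε hε => by
      obtain ⟨j, hj1, hj2⟩ := (Nat.frequently_atTop_iff_infinite.2 (N i).2).and_eventually
        (ha0.and (hl3 (N i) a ε hε)) |>.exists
      have := hj2.2 hj1
      rw [hj2.1] at this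
      linarith
    have h4 := le_ciSup (hbdd u φ hφ) a
    have h5 := abs_le.1 (hev a (u - h))
    rw [map_sub, ← dist_eq_norm] at h5
    simp only [σ]
    linarith
  have hC1 : ∀ k, ∀ g ∈ C k, ‖g‖ ≤ 1 := fun k g hg => by
    have := closure_minimal (t := Metric.closedBall 0 1)
      (convexHull_min (s := f '' (N k).1) (by rintro _ ⟨j, -, rfl⟩; simpa using hf1 j)
      (convex_closedBall 0 1)) Metric.isClosed_closedBall hg
    simpa using this
  obtain ⟨r, hrC, hr⟩ := simons_core (fun u => max θ (σ u)) C (fun k => isClosed_closure)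
    (fun k => (convex_convexHull ℝ _).closure)
    (fun k => ((N k).2.nonempty.image f).convexHull.closure)
    (fun k => closure_mono (convexHull_mono (image_mono (hNa (Nat.le_succ k))))) hC1
    θ (fun u => le_max_left _ _) (half_pos hθ)
  have hr1 : ∀ k, ‖r k‖ ≤ 1 := fun k => hC1 k _ (hrC k)
  obtain ⟨w, hw⟩ := hcl r hr1
  have hhy : (hyperfilter ℕ : Filter ℕ) ≤ atTop := Nat.hyperfilter_le_atTop
  have hlow : ∀ a, φ a ≤ ev a w := fun a => ciSup_le fun i =>
    le_of_forall_pos_le_add fun ε hε => by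
      obtain ⟨m, hm⟩ := eventually_atTop.1 (hl3 (N i) a ε hε)
      have h3 : lam (N i) a - ε ≤ ev a w := by
        refine ge_of_tendsto (hw a) (hhy ((eventually_ge_atTop (max i m)).mono fun k hk => ?_))
        have := le_of_mem_closure_hull (-ev a) (c := -(lam (N i) a - ε)) (by
          rintro _ ⟨j, hj, rfl⟩
          have := hm j ((le_max_right _ _).trans (hk.trans (hNg k j hj)))
            (hNa ((le_max_left _ _).trans hk) hj)
          simp only [neg_apply]
          linarith) (hrC k)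
        simp only [neg_apply] at this
        change lam (N i) a - ε ≤ ev a (r k)
        linarith
      linarith
  have hup : ∀ i, ev (a₂ i (N i)) w ≤ lam (N i) (a₂ i (N i)) + e i := fun i => by
    refine le_of_tendsto (hw _) (hhy ((eventually_ge_atTop (i + 1)).mono fun k hk => ?_))
    exact le_of_mem_closure_hull _ (by
      rintro _ ⟨j, hj, rfl⟩
      exact (hN3 i _ j (hNa hk hj)).le) (hrC k)
  obtain ⟨a, ha⟩ := hatt (r 0 - w)
  have hσr : σ (r 0) ≤ ev a (r 0) - ev a w := by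
    refine ciSup_le fun a' => le_of_forall_pos_le_add fun η hη => ?_
    have h3 : r 0 ∈ closure (range d) := by
      rw [← hd]
      refine closure_mono (subset_insert _ _) (hc' (closure_mono ?_ (hrC 0)))
      exact convexHull_min ((image_subset_range _ _).trans Submodule.subset_span)
        (Submodule.span ℝ (range f)).convex
    obtain ⟨_, ⟨n, rfl⟩, hn⟩ := Metric.mem_closure_iff.1 h3 (η / 4) (by positivity)
    obtain ⟨m, hm⟩ := exists_nat_one_div_lt (show 0 < η / 4 by positivity)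
    let i := Nat.pair n m
    have h4 : hh i = d n := by simp [hh, i]
    have h5 : e i ≤ η / 4 := (Nat.one_div_le_one_div (Nat.right_le_pair n m)).trans hm.le
    have h6 := hN4 i (N i) a'
    have h7 := hup i
    have h8 := ha (a₂ i (N i))
    have h9 := abs_le.1 (hev a' (r 0 - d n))
    have h10 := abs_le.1 (hev (a₂ i (N i)) (r 0 - d n))
    have h11 := le_ciSup (hφb a') i
    rw [map_sub, ← dist_eq_norm] at h9 h10
    rw [map_sub, map_sub] at h8
    rw [h4] at h6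
    change lam (N i) a' ≤ φ a' at h11
    linarith
  have h3 := hr (ev a) (ev a w) (fun u _ => le_max_of_le_right
    ((sub_le_sub_left (hlow a) _).trans (le_ciSup (hbdd u φ hφ) a)))
    (max_le ((hθσ _ (hrC 0)).trans hσr) hσr)
  have h4 := ge_of_tendsto (hw a) (Eventually.of_forall h3)
  have h5 := (hθσ _ (hrC 0)).trans hσr
  linarith

end Pool.Agent.Lib.MP_43cf21_an
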