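import Pool.Agent.Lib.MP_43cf21_an.Refl

set_option autoImplicit false

/-!
States of the algebra of operators are continuous for uniform convergence on compact sets; the
consequence in the Calkin algebra.
-/

namespace Pool.Agent.Lib.MP_43cf21_an

open Set Filter Topology

variable {X : Type*} [NormedAddCommGroup X] [NormedSpace ℝ X]

lemma quot_add (M : Submodule ℝ X) (a b : X) : ‖M.mkQ (a + b)‖ ≤ ‖M.mkQ a‖ + ‖M.mkQ b‖ := by
  rw [map_add]
  exact norm_add_le _ _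

lemma quot_smul (M : Submodule ℝ X) (t : ℝ) (a : X) : ‖M.mkQ (t • a)‖ = |t| * ‖M.mkQ a‖ := by
  rw [map_smul, norm_smul, Real.norm_eq_abs]

lemma norm_smul_dual (t : ℝ) (a : X →L[ℝ] ℝ) : ‖t • a‖ = |t| * ‖a‖ := by
  rw [norm_smul, Real.norm_eq_abs]

lemma exists_clm (b : X →ₗ[ℝ] (StrongDual ℝ X →L[ℝ] ℝ)) (h : ∀ x, ‖b x‖ ≤ ‖x‖) :
    ∃ b' : X →L[ℝ] (StrongDual ℝ X →L[ℝ] ℝ), ∀ x, b' x = b x :=
  ⟨⟨b, AddMonoidHomClass.continuous_of_bound (F := StrongDual ℝ X →L[ℝ] ℝ) b 1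
    fun x => (h x).trans (one_mul _).ge⟩, fun _ => rfl⟩

/-- Elementary tensors as functionals on the algebra of operators. -/
noncomputable def ten : X →L[ℝ] StrongDual ℝ X →L[ℝ] (X →L[ℝ] X) →L[ℝ] ℝ :=
  (ContinuousLinearMap.compL ℝ (X →L[ℝ] X) X ℝ).flip.comp (ContinuousLinearMap.apply ℝ X)

@[simp] lemma ten_apply (x : X) (g : StrongDual ℝ X) (A : X →L[ℝ] X) : ten x g A = g (A x) := rfl

/-- The closed span of the elementary tensors. -/
noncomputable def tenE (X : Type*) [NormedAddCommGroup X] [NormedSpace ℝ X] :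
    Submodule ℝ ((X →L[ℝ] X) →L[ℝ] ℝ) :=
  (Submodule.span ℝ (range fun p : X × StrongDual ℝ X => ten p.1 p.2)).topologicalClosure

lemma ten_mem (x : X) (g : StrongDual ℝ X) : ten x g ∈ tenE X :=
  Submodule.le_topologicalClosure _ (Submodule.subset_span ⟨(x, g), rfl⟩)

lemma exists_op (hR : Function.Surjective (NormedSpace.inclusionInDoubleDual ℝ X))
    (b : X →L[ℝ] StrongDual ℝ X →L[ℝ] ℝ) : ∃ A : X →L[ℝ] X, ∀ x g, g (A x) = b x g := by
  let e := LinearIsometryEquiv.ofSurjective (NormedSpace.inclusionInDoubleDualLi ℝ (E := X)) hR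
  refine ⟨(e.symm : StrongDual ℝ (StrongDual ℝ X) →L[ℝ] X).comp b, fun x g => ?_⟩
  exact DFunLike.congr_fun (e.apply_symm_apply (b x)) g

theorem mem_tenE [CompleteSpace X] (h : Att X) (Φ : (X →L[ℝ] X) →L[ℝ] ℝ)
    (hΦ : ∀ A, ∃ a : NR X, Φ A ≤ a.1.2 (A a.1.1)) : Φ ∈ tenE X := by
  have hR := refl_of_att h
  by_contra hno
  have hcl : IsClosed (tenE X : Set ((X →L[ℝ] X) →L[ℝ] ℝ)) :=
    Submodule.isClosed_topologicalClosure _
  obtain ⟨θ, hθ, hd⟩ := (Metric.isOpen_iff (α := (X →L[ℝ] X) →L[ℝ] ℝ)).1 hcl.isOpen_compl Φ hno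
  have hd' : ∀ u ∈ tenE X, θ / 2 < ‖Φ - u‖ := fun u hu => by
    by_contra hlt
    refine hd (a := u) ?_ hu
    have h1 : dist Φ u = ‖Φ - u‖ := dist_eq_norm Φ u
    rw [Metric.mem_ball, dist_comm, h1]
    linarith [not_lt.1 hlt]
  refine james_core (W := X →L[ℝ] X) (fun a : NR X => ten a.1.1 a.1.2) (fun a A => a.abs_le' A)
    h (fun r hr => ?_) {A | ‖A‖ ≤ 1 ∧ θ / 2 < Φ A} ?_ (fun f hf => hf.1) (half_pos hθ)
    (fun A hA => ?_) fun F hF => ?_
  · choose Ψ h1 h2 using fun x : X => exists_weak_limit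
      (fun k => NormedSpace.inclusionInDoubleDual ℝ X (r k x)) (M := ‖x‖) fun k =>
        (NormedSpace.double_dual_bound ℝ X _).trans (by simpa using (r k).le_of_opNorm_le (hr k) x)
    let b : X →ₗ[ℝ] StrongDual ℝ X →L[ℝ] ℝ :=
      { toFun := Ψ
        map_add' := fun x y => by
          ext g
          exact tendsto_nhds_unique (h2 (x + y) g) (by simpa using (h2 x g).add (h2 y g))
        map_smul' := fun t x => by
          ext g
          exact tendsto_nhds_unique (h2 (t • x) g) (by simpa using (h2 x g).const_mul t) }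
    obtain ⟨b', hb'⟩ := exists_clm b h1
    obtain ⟨A, hA⟩ := exists_op hR b'
    exact ⟨A, fun a => by rw [ten_apply, hA, hb']; exact h2 _ _⟩
  · have := (convex_closedBall (0 : X →L[ℝ] X) 1).inter
      (convex_halfSpace_gt (Φ : (X →L[ℝ] X) →ₗ[ℝ] ℝ).isLinear (θ / 2))
    intro f hf g hg s t hs ht hst
    have h1 := this (x := f) ⟨by simpa using hf.1, hf.2⟩ (y := g) ⟨by simpa using hg.1, hg.2⟩
      hs ht hst
    exact ⟨by simpa using h1.1, h1.2⟩
  · obtain ⟨a, ha⟩ := hΦ A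
    exact ⟨a, hA.2.trans_le ha⟩
  · have := hF.to_subtype
    obtain ⟨f, h1, h2, h3⟩ := exists_of_dist Φ (fun a : F => ten a.1.1.1 a.1.1.2) (θ := θ / 2)
      fun u hu => hd' u ((Submodule.span_le.2 (by rintro _ ⟨a, rfl⟩; exact ten_mem _ _)) hu)
    exact ⟨f, ⟨h1, h2⟩, fun a ha => h3 ⟨a, ha⟩⟩

/-- Functionals controlled by finitely many vectors of the unit ball. -/
def finG (X : Type*) [NormedAddCommGroup X] [NormedSpace ℝ X] : Set ((X →L[ℝ] X) →L[ℝ] ℝ) :=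
  {u | u ∈ tenE X ∧ ∃ F : Set X, F.Finite ∧ (∀ x ∈ F, ‖x‖ ≤ 1) ∧
    ∀ (A : X →L[ℝ] X) (c : ℝ), 0 ≤ c → (∀ x ∈ F, ‖A x‖ ≤ c) → |u A| ≤ c}

lemma convex_finG : Convex ℝ (finG X) := by
  rintro u ⟨hu, F, h1, h2, h3⟩ v ⟨hv, F', h1', h2', h3'⟩ s t hs ht hst
  refine ⟨add_mem (Submodule.smul_mem _ _ hu) (Submodule.smul_mem _ _ hv), F ∪ F', h1.union h1',
    fun x hx => hx.elim (h2 x) (h2' x), fun A c hc hA => ?_⟩
  have h4 := abs_le.1 (h3 A c hc fun x hx => hA x (Or.inl hx))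
  have h5 := abs_le.1 (h3' A c hc fun x hx => hA x (Or.inr hx))
  change |s * u A + t * v A| ≤ c
  have h6 : c = s * c + t * c := by rw [← add_mul, hst, one_mul]
  rw [abs_le]
  constructor <;> nlinarith

lemma mem_closure_finG (hR : Function.Surjective (NormedSpace.inclusionInDoubleDual ℝ X))
    {u : (X →L[ℝ] X) →L[ℝ] ℝ} (hu : u ∈ tenE X) (hu1 : ‖u‖ ≤ 1) : u ∈ closure (finG X) := by
  by_contra hno
  obtain ⟨Θ, c, h1, h2⟩ := geometric_hahn_banach_closed_point convex_finG.closure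
    isClosed_closure hno
  have h3 : ∀ x g, ‖x‖ ≤ 1 → ‖g‖ ≤ 1 → Θ (ten x g) < c := fun x g hx hg =>
    h1 _ (subset_closure ⟨ten_mem x g, {x}, finite_singleton x, by simpa using hx,
      fun A c _ hA => le_trans (by simpa using g.le_of_opNorm_le hg (A x)) (hA x rfl)⟩)
  have hc : 0 < c := by simpa using h3 0 0 (by simp) (by simp)
  obtain ⟨A, hA⟩ := exists_op hR
    ((ContinuousLinearMap.compL ℝ (StrongDual ℝ X) ((X →L[ℝ] X) →L[ℝ] ℝ) ℝ Θ).comp ten)
  replace hA : ∀ x g, g (A x) = Θ (ten x g) := hA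
  have h4 : ‖A‖ ≤ c := ContinuousLinearMap.opNorm_le_of_unit_norm hc.le fun x hx => by
    obtain ⟨g, hg, hg'⟩ := exists_dual_vector'' ℝ (A x)
    have := h3 x g hx.le hg
    rw [← hA, hg'] at this
    exact this.le
  have h5 : tenE X ≤ LinearMap.ker
      ((Θ - ContinuousLinearMap.apply ℝ ℝ A : ((X →L[ℝ] X) →L[ℝ] ℝ) →L[ℝ] ℝ) :
        ((X →L[ℝ] X) →L[ℝ] ℝ) →ₗ[ℝ] ℝ) := by
    refine Submodule.topologicalClosure_minimal _ (Submodule.span_le.2 ?_)
      (ContinuousLinearMap.isClosed_ker _)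
    rintro _ ⟨p, rfl⟩
    change Θ (ten p.1 p.2) - p.2 (A p.1) = 0
    rw [hA, sub_self]
  have h6 : Θ u - u A = 0 := h5 hu
  have h7 : |u A| ≤ 1 * ‖A‖ := u.le_of_opNorm_le hu1 A
  linarith [le_abs_self (u A)]

lemma exists_compact_control [CompleteSpace X]
    (hR : Function.Surjective (NormedSpace.inclusionInDoubleDual ℝ X))
    {u : (X →L[ℝ] X) →L[ℝ] ℝ} (hu : u ∈ tenE X) (hu1 : ‖u‖ ≤ 1) :
    ∃ Q : Set X, IsCompact Q ∧
      ∀ (A : X →L[ℝ] X) (c : ℝ), 0 ≤ c → (∀ x ∈ Q, ‖A x‖ ≤ c) → |u A| ≤ 2 * c := by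
  have step : ∀ p : {u : (X →L[ℝ] X) →L[ℝ] ℝ // u ∈ tenE X ∧ ‖u‖ ≤ 1},
      ∃ q : {u : (X →L[ℝ] X) →L[ℝ] ℝ // u ∈ tenE X ∧ ‖u‖ ≤ 1}, ∃ F : Set X, F.Finite ∧
        (∀ x ∈ F, ‖x‖ ≤ 1) ∧ ∀ (A : X →L[ℝ] X) (c : ℝ), 0 ≤ c → (∀ x ∈ F, ‖A x‖ ≤ c) →
          |p.1 A - (1 / 4) * q.1 A| ≤ c := by
    rintro ⟨p, hp, hp1⟩
    obtain ⟨v, ⟨hv, F, h1, h2, h3⟩, hv'⟩ :=
      (Metric.mem_closure_iff (α := (X →L[ℝ] X) →L[ℝ] ℝ)).1 (mem_closure_finG hR hp hp1) (1 / 4)
        (by norm_num)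
    have h4 : dist p v = ‖p - v‖ := dist_eq_norm p v
    refine ⟨⟨(4 : ℝ) • (p - v), Submodule.smul_mem _ _ (sub_mem hp hv), ?_⟩, F, h1, h2,
      fun A c hc hA => ?_⟩
    · rw [norm_smul_dual, abs_of_pos (by norm_num)]
      linarith
    · convert h3 A c hc hA using 2
      change p A - 1 / 4 * (4 * (p A - v A)) = v A
      ring
  choose q F h1 h2 h3 using step
  let P : ℕ → {u : (X →L[ℝ] X) →L[ℝ] ℝ // u ∈ tenE X ∧ ‖u‖ ≤ 1} := fun n => q^[n] ⟨u, hu, hu1⟩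
  have hP : ∀ n, P (n + 1) = q (P n) := fun n => Function.iterate_succ_apply' _ _ _
  have hlim : Tendsto (fun n : ℕ => (1 / 2 : ℝ) ^ n) atTop (𝓝 0) :=
    tendsto_pow_atTop_nhds_zero_of_lt_one (by norm_num) (by norm_num)
  refine ⟨closure (⋃ n, (fun x => (1 / 2 : ℝ) ^ n • x) '' F (P n)),
    (TotallyBounded.closure ?_).isCompact_of_isClosed isClosed_closure, fun A c hc hA => ?_⟩
  · refine Metric.totallyBounded_iff.2 fun ε hε => ?_
    obtain ⟨m, hm⟩ := eventually_atTop.1 (hlim.eventually (gt_mem_nhds hε))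
    refine ⟨insert 0 (⋃ n ∈ Iio m, (fun x => (1 / 2 : ℝ) ^ n • x) '' F (P n)),
      ((finite_Iio m).biUnion fun n _ => (h1 _).image _).insert 0, fun y hy => ?_⟩
    obtain ⟨n, x, hx, rfl⟩ := mem_iUnion.1 hy
    rcases lt_or_ge n m with hn | hn
    · exact mem_biUnion (Or.inr (mem_biUnion hn ⟨x, hx, rfl⟩)) (Metric.mem_ball_self hε)
    · refine mem_biUnion (mem_insert _ _) ?_
      rw [mem_ball_zero_iff, norm_smul, Real.norm_of_nonneg (by positivity)]
      exact (mul_le_of_le_one_right (by positivity) (h2 _ x hx)).trans_lt (hm n hn)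
  · have h4 : ∀ n, |u A - (1 / 2) ^ n * (1 / 2) ^ n * (P n).1 A| ≤ 2 * c * (1 - (1 / 2) ^ n) := by
      intro n
      induction n with
      | zero => simp [P]
      | succ n ih =>
        have hn : (0 : ℝ) < (1 / 2) ^ n := by positivity
        have h5 := h3 (P n) (((1 / 2 : ℝ) ^ n) • A) c hc fun x hx => by
          have := hA _ (subset_closure (mem_iUnion.2 ⟨n, x, hx, rfl⟩))
          simpa using this
        rw [← hP, map_smul, map_smul, smul_eq_mul, smul_eq_mul, abs_le] at h5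
        rw [abs_le] at ih ⊢
        rw [pow_succ]
        constructor <;> nlinarith
    refine ge_of_tendsto' (x := atTop) (f := fun n : ℕ => 2 * c + (1 / 2) ^ n * ‖A‖)
      (by simpa using (hlim.mul_const ‖A‖).const_add (2 * c)) fun n => ?_
    have h5 := h4 n
    have hn : (0 : ℝ) < (1 / 2) ^ n := by positivity
    have hn1 : (1 / 2 : ℝ) ^ n ≤ 1 := pow_le_one₀ (by norm_num) (by norm_num)
    have h6 : |(P n).1 A| ≤ 1 * ‖A‖ := (P n).1.le_of_opNorm_le (P n).2.2 A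
    have h7 : |(1 / 2) ^ n * (1 / 2) ^ n * (P n).1 A| ≤ (1 / 2) ^ n * ‖A‖ := by
      rw [abs_mul, abs_of_pos (mul_pos hn hn), mul_assoc]
      refine mul_le_mul_of_nonneg_left ?_ hn.le
      nlinarith [abs_nonneg ((P n).1 A)]
    have h8 := abs_sub_abs_le_abs_sub (u A) ((1 / 2) ^ n * (1 / 2) ^ n * (P n).1 A)
    nlinarith

lemma lumer (A : X →L[ℝ] X) {s : ℝ} (hs : ∀ b : NR X, b.1.2 (A b.1.1) ≤ s)
    (φ : (X →L[ℝ] X) →L[ℝ] ℝ) (h1 : φ 1 = 1) (h2 : ∀ B, |φ B| ≤ ‖B‖) : φ A ≤ s := by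
  have h3 : ∀ t : ℝ, 0 < t → ∀ y, (1 - t * s) * ‖y‖ ≤ ‖y - t • A y‖ := by
    intro t ht y
    rcases eq_or_ne y 0 with rfl | hy
    · simp
    obtain ⟨a, ha⟩ := NR.exists (x := ‖y‖⁻¹ • y) (norm_smul_inv_norm hy)
    have h4 : y = ‖y‖ • a.1.1 := by rw [ha, smul_inv_smul₀ (norm_ne_zero_iff.2 hy)]
    refine le_trans ?_ ((le_abs_self _).trans (a.abs_le _))
    have h5 : a.1.2 (y - t • A y) = ‖y‖ * (1 - t * a.1.2 (A a.1.1)) := by
      conv_lhs => rw [h4]
      simp only [map_sub, map_smul, smul_eq_mul, a.2.2.2]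
      ring
    rw [h5, mul_comm]
    exact mul_le_mul_of_nonneg_left (by nlinarith [hs a]) (norm_nonneg _)
  have h4 : ∀ t : ℝ, 0 < t → 0 < 1 - t * s → φ A - s ≤ t * (‖A‖ ^ 2 + s * φ A) := by
    intro t ht hts
    have h5 : ‖1 + t • A‖ ≤ (1 + t ^ 2 * ‖A‖ ^ 2) / (1 - t * s) := by
      refine ContinuousLinearMap.opNorm_le_of_unit_norm (by positivity) fun y hy => ?_
      rw [le_div_iff₀' hts]
      refine (h3 t ht _).trans ?_
      have h6 : (1 + t • A) y - t • A ((1 + t • A) y) = y - t ^ 2 • A (A y) := by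
        simp only [add_apply, smul_apply, one_apply_eq_self, map_add, map_smul]
        module
      rw [h6]
      refine (norm_sub_le _ _).trans (add_le_add hy.le ?_)
      rw [norm_smul, Real.norm_of_nonneg (by positivity)]
      refine mul_le_mul_of_nonneg_left ((A.le_opNorm _).trans ?_) (by positivity)
      rw [sq]
      exact mul_le_mul_of_nonneg_left (A.unit_le_opNorm y hy.le) (norm_nonneg _)
    have h6 := ((le_abs_self _).trans (h2 (1 + t • A))).trans h5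
    rw [map_add, h1, map_smul, smul_eq_mul, le_div_iff₀ hts] at h6
    refine le_of_mul_le_mul_left ?_ ht
    nlinarith
  have h5 : Tendsto (fun t : ℝ => t * (‖A‖ ^ 2 + s * φ A)) (𝓝[>] 0) (𝓝 0) := by
    have : Tendsto (fun t : ℝ => t * (‖A‖ ^ 2 + s * φ A)) (𝓝 0) (𝓝 (0 * (‖A‖ ^ 2 + s * φ A))) :=
      tendsto_id.mul_const _
    rw [zero_mul] at this
    exact this.mono_left nhdsWithin_le_nhds
  have h6 : ∀ᶠ t : ℝ in 𝓝[>] 0, 0 < 1 - t * s := by
    have : Tendsto (fun t : ℝ => 1 - t * s) (𝓝 0) (𝓝 (1 - 0 * s)) :=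
      (tendsto_id.mul_const _).const_sub _
    exact (this.mono_left nhdsWithin_le_nhds).eventually (lt_mem_nhds (by simp))
  have := ge_of_tendsto h5 ((h6.and self_mem_nhdsWithin).mono fun t ht => h4 t ht.2 ht.1)
  linarith

theorem state_zero [CompleteSpace X] (h : Att X) (φ : (X →L[ℝ] X) →L[ℝ] ℝ) (h1 : φ 1 = 1)
    (h2 : ∀ B, |φ B| ≤ ‖B‖) (h3 : ∀ K : X →L[ℝ] X, IsCompactOperator K → φ K = 0)
    {A : X →L[ℝ] X} (hA : CompactApprox A) : φ A = 0 := by
  obtain ⟨Q, hQ, h4⟩ := exists_compact_control (refl_of_att h)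
    (mem_tenE h φ fun B => let ⟨a, ha⟩ := h B; ⟨a, lumer B ha φ h1 h2⟩)
    (φ.opNorm_le_bound zero_le_one fun B => by simpa using h2 B)
  refine abs_nonpos_iff.1 (le_of_forall_pos_le_add fun ε hε => ?_)
  obtain ⟨K, hK, hK'⟩ := hA Q hQ _ (half_pos hε)
  have := h4 (A - K) _ (half_pos hε).le hK'
  rw [map_sub, h3 K hK, sub_zero] at this
  linarith

lemma CompactApprox.mul {A : X →L[ℝ] X} (hA : CompactApprox A) (S : X →L[ℝ] X) :
    CompactApprox (A * S) := fun Q hQ ε hε => by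
  obtain ⟨K, hK, hK'⟩ := hA _ (hQ.image S.continuous) ε hε
  exact ⟨K * S, hK.comp_clm S, fun x hx => hK' _ ⟨x, hx, rfl⟩⟩

theorem compact_of_approx [CompleteSpace X] (h : Att X) {A : X →L[ℝ] X} (hA : CompactApprox A) :
    IsCompactOperator A := by
  let K := compactOperator (RingHom.id ℝ) X X
  let N : (X →L[ℝ] X) → ℝ := fun c => ‖K.mkQ c‖
  have hNa : ∀ a c, N (a + c) ≤ N a + N c := quot_add K
  have hNs : ∀ (t : ℝ) c, N (t • c) = |t| * N c := quot_smul K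
  have hN0 : ∀ c, 0 ≤ N c := fun c => norm_nonneg (K.mkQ c)
  have hmul : ∀ a c, N (a * c) ≤ ‖a‖ * N c := fun a c => by
    refine le_of_forall_pos_le_add fun ε hε => ?_
    obtain ⟨m, hm, hm'⟩ := Submodule.Quotient.norm_mk_lt (K.mkQ c)
      (show 0 < ε / (‖a‖ + 1) by positivity)
    have h1 : K.mkQ (a * c) = K.mkQ (a * m) := by
      refine ((Submodule.Quotient.eq _).2 ?_).symm
      rw [← mul_sub]
      exact IsCompactOperator.clm_comp ((Submodule.Quotient.eq _).1 hm) a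
    have h2 : N (a * c) ≤ ‖a‖ * ‖m‖ := by
      simp only [N, h1]
      exact (Submodule.Quotient.norm_mk_le _ _).trans (norm_mul_le _ _)
    have h3 : ‖a‖ * (ε / (‖a‖ + 1)) ≤ ε := by
      rw [← mul_div_assoc, div_le_iff₀ (by positivity)]
      nlinarith
    have h4 := mul_le_mul_of_nonneg_left hm'.le (norm_nonneg a)
    change ‖a‖ * ‖m‖ ≤ ‖a‖ * (N c + _) at h4
    linarith
  have hlow : ∀ b, CompactApprox b → ∀ c, N c ≤ N ((1 - b) * c) := fun b hb c => by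
    rcases (hN0 c).eq_or_lt with h0 | h0
    · exact h0 ▸ hN0 _
    obtain ⟨ψ, h1, h2⟩ := exists_dual_quot K c
    have h3 := state_zero h ((N c)⁻¹ • ψ.comp ((ContinuousLinearMap.mul ℝ _).flip c))
      (by
        change (N c)⁻¹ * ψ (1 * c) = 1
        rw [one_mul, h2]
        exact inv_mul_cancel₀ h0.ne')
      (fun B => by
        change |(N c)⁻¹ * ψ (B * c)| ≤ _
        rw [abs_mul, abs_of_pos (inv_pos.2 h0), inv_mul_le_iff₀' h0]
        exact (h1 _).trans (hmul B c))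
      (fun k hk => by
        change (N c)⁻¹ * ψ (k * c) = 0
        have := h1 (k * c)
        rw [Submodule.mkQ_apply, (Submodule.Quotient.mk_eq_zero K).2 (hk.comp_clm c), norm_zero,
          abs_nonpos_iff] at this
        rw [this, mul_zero]) hb
    change (N c)⁻¹ * ψ (b * c) = 0 at h3
    have h4 := (le_abs_self _).trans (h1 ((1 - b) * c))
    refine le_trans (le_of_eq ?_) h4
    rw [sub_mul, one_mul, map_sub, (mul_eq_zero.1 h3).resolve_left (inv_pos.2 h0).ne', sub_zero,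
      h2]
  have hup : ∀ b, CompactApprox b → ‖b‖ < 1 → ∀ c, N ((1 - b) * c) ≤ N c := fun b hb hb1 c => by
    let u := Units.oneSub b hb1
    have h1 : (u : X →L[ℝ] X) = 1 - b := rfl
    have h2 : (1 : X →L[ℝ] X) - b * -(↑u⁻¹) = ↑u⁻¹ := by
      have := u.mul_inv
      rw [h1, sub_mul, one_mul] at this
      rw [mul_neg, sub_neg_eq_add, ← this, sub_add_cancel]
    have h3 := hlow _ (hb.mul (-(↑u⁻¹))) ((1 - b) * c)
    rwa [h2, ← h1, Units.inv_mul_cancel_left] at h3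
  set t : ℝ := (‖A‖ + 1)⁻¹ with ht
  have ht0 : 0 < t := by positivity
  set b := A * (t • 1) with hb
  have hb' : b = t • A := by rw [hb, mul_smul_comm, mul_one]
  have hb1 : ‖b‖ < 1 := by
    rw [hb', norm_smul, Real.norm_of_nonneg ht0.le, inv_mul_lt_iff₀ (by positivity)]
    linarith
  have h1 := hup b (hA.mul _) hb1
  have h2 := hup (b * -1) ((hA.mul _).mul _) (by simpa using hb1)
  have h3 : ∀ (n : ℕ) (s : ℝ) (c : X →L[ℝ] X),
      N ((s • 1 + (n : ℝ) • b) * c) ≤ √(s ^ 2 + n) * N c := by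
    intro n
    induction n with
    | zero =>
      intro s c
      simp [hNs, Real.sqrt_sq_eq_abs]
    | succ n ih =>
      intro s c
      have h4 : (s • 1 + ((n + 1 : ℕ) : ℝ) • b) * c =
          (1 / 2 : ℝ) • (((s + 1) • 1 + (n : ℝ) • b) * ((1 - b * -1) * c)) +
          (1 / 2 : ℝ) • (((s - 1) • 1 + (n : ℝ) • b) * ((1 - b) * c)) := by
        simp only [mul_neg, mul_one, sub_neg_eq_add, add_mul, sub_mul, mul_add, mul_sub, one_mul,
          smul_mul_assoc, Nat.cast_succ]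
        module
      have h5 : N ((s • 1 + ((n + 1 : ℕ) : ℝ) • b) * c) ≤
          1 / 2 * N (((s + 1) • 1 + (n : ℝ) • b) * ((1 - b * -1) * c)) +
          1 / 2 * N (((s - 1) • 1 + (n : ℝ) • b) * ((1 - b) * c)) := by
        rw [h4]
        refine (hNa _ _).trans (le_of_eq ?_)
        rw [hNs, hNs, abs_of_pos (by norm_num)]
      have h6 := (ih (s + 1) _).trans (mul_le_mul_of_nonneg_left (h2 c) (Real.sqrt_nonneg _))
      have h7 := (ih (s - 1) _).trans (mul_le_mul_of_nonneg_left (h1 c) (Real.sqrt_nonneg _))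
      have h8 : 1 / 2 * √((s + 1) ^ 2 + n) + 1 / 2 * √((s - 1) ^ 2 + n) ≤
          √(s ^ 2 + (n + 1 : ℕ)) := by
        refine Real.le_sqrt_of_sq_le ?_
        have e1 := Real.sq_sqrt (show 0 ≤ (s + 1) ^ 2 + n by positivity)
        have e2 := Real.sq_sqrt (show 0 ≤ (s - 1) ^ 2 + n by positivity)
        push_cast
        nlinarith [sq_nonneg (√((s + 1) ^ 2 + n) - √((s - 1) ^ 2 + n))]
      have h9 := mul_le_mul_of_nonneg_right h8 (hN0 c)
      linarith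
  have h4 : N b = 0 := by
    by_contra hne
    have h5 : 0 < N b := (hN0 b).lt_of_ne' hne
    obtain ⟨n, hn⟩ := exists_nat_gt ((N 1 / N b) ^ 2)
    have h6 := h3 n 0 1
    have h7 : N (((0 : ℝ) • 1 + (n : ℝ) • b) * 1) = n * N b := by simp [hNs]
    rw [h7, sq, zero_mul, zero_add] at h6
    have hn0 : (0 : ℝ) < n := (sq_nonneg _).trans_lt hn
    have h8 := Real.lt_sqrt_of_sq_lt hn
    rw [div_lt_iff₀ h5] at h8
    have h9 := Real.mul_self_sqrt hn0.le
    have h10 := mul_lt_mul_of_pos_left h8 (Real.sqrt_pos.2 hn0)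
    rw [← mul_assoc, h9] at h10
    linarith
  have h5 : b ∈ closure (K : Set (X →L[ℝ] X)) :=
    QuotientAddGroup.norm_mk_eq_zero_iff_mem_closure.1 h4
  have h6 : IsCompactOperator b :=
    (isClosed_setOfPred_isCompactOperator (M₁ := X) (M₂ := X) (σ₁₂ := RingHom.id ℝ)).closure_subset h5
  have h7 := h6.smul t⁻¹
  rwa [hb', FunLike.coe_smul, inv_smul_smul₀ ht0.ne'] at h7

end Pool.Agent.Lib.MP_43cf21_an
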