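import Pool.Agent.Lib.MP_43cf21_an.James
import Pool.Agent.Lib.MP_43cf21_an.Defs

set_option autoImplicit false

/-!
An isometry with the Bhatia-Semrl property forces every operator to attain the supremum of its
numerical range, and this forces reflexivity.
-/

namespace Pool.Agent.Lib.MP_43cf21_an

open Set Filter Topology

section HB

variable {V : Type*} [NormedAddCommGroup V] [NormedSpace ℝ V]

lemma exists_of_dist (Φ : V →L[ℝ] ℝ) {ι : Type*} [Finite ι] (e : ι → V →L[ℝ] ℝ) {θ : ℝ}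
    (h : ∀ u ∈ Submodule.span ℝ (range e), θ < ‖Φ - u‖) :
    ∃ v, ‖v‖ ≤ 1 ∧ θ < Φ v ∧ ∀ i, e i v = 0 := by
  have := Fintype.ofFinite ι
  let M : Submodule ℝ V := ⨅ i, LinearMap.ker (e i : V →ₗ[ℝ] ℝ)
  obtain ⟨Φ', h1, h2⟩ := exists_extension_norm_eq M (Φ.comp M.subtypeL)
  have h3 : ((Φ - Φ' : V →L[ℝ] ℝ) : V →ₗ[ℝ] ℝ) ∈
      Submodule.span ℝ (range fun i => (e i : V →ₗ[ℝ] ℝ)) :=
    mem_span_of_iInf_ker_le_ker fun x hx => by
      have := h1 ⟨x, hx⟩
      simp only [ContinuousLinearMap.comp_apply, Submodule.subtypeL_apply] at this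
      simp [this]
  obtain ⟨c, hc⟩ := (Submodule.mem_span_range_iff_exists_fun ℝ).1 h3
  have h4 := h (∑ i, c i • e i) (Submodule.sum_mem _ fun i _ =>
    Submodule.smul_mem _ _ (Submodule.subset_span (mem_range_self i)))
  have h5 : Φ - ∑ i, c i • e i = Φ' := by
    ext x
    have := LinearMap.congr_fun hc x
    simp only [LinearMap.coe_sum, Finset.sum_apply, LinearMap.smul_apply, ContinuousLinearMap.coe_coe,
      ContinuousLinearMap.toLinearMap_sub, LinearMap.sub_apply] at this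
    simp only [sub_apply, sum_apply,
      smul_apply, this, sub_sub_cancel]
  rw [h5, h2] at h4
  obtain ⟨x, hx, hx'⟩ := ContinuousLinearMap.exists_lt_apply_of_lt_opNorm _ h4
  have h6 : ∀ i, e i x = 0 := fun i => (Submodule.mem_iInf _).1 x.2 i
  rcases lt_abs.1 hx' with h7 | h7
  · exact ⟨x, hx.le, h7, h6⟩
  · exact ⟨-x, by simpa using hx.le, by simpa using h7, fun i => by simp [h6]⟩

lemma exists_dual_quot (M : Submodule ℝ V) (c : V) :
    ∃ ψ : V →L[ℝ] ℝ, (∀ v, |ψ v| ≤ ‖M.mkQ v‖) ∧ ψ c = ‖M.mkQ c‖ := by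
  obtain ⟨g, hg, hg'⟩ := exists_dual_vector'' ℝ (M.mkQ c)
  refine ⟨g.comp M.mkQL, fun v => ?_, hg'⟩
  simpa using g.le_of_opNorm_le hg (M.mkQ v)

lemma exists_dual_of_BJ {x y : V} (h : BJOrth x y) :
    ∃ g : StrongDual ℝ V, ‖g‖ ≤ 1 ∧ g x = ‖x‖ ∧ g y = 0 := by
  obtain ⟨g, h1, h2⟩ := exists_dual_quot (Submodule.span ℝ {y}) x
  refine ⟨g, g.opNorm_le_bound zero_le_one fun v => ?_, h2.trans (le_antisymm
    (Submodule.Quotient.norm_mk_le _ x) (QuotientAddGroup.le_norm_iff.2 fun m hm => ?_)), ?_⟩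
  · simpa using (h1 v).trans (Submodule.Quotient.norm_mk_le _ v)
  · obtain ⟨t, ht⟩ := Submodule.mem_span_singleton.1 ((Submodule.Quotient.eq _).1 hm)
    have := h t
    rwa [ht, add_sub_cancel] at this
  · have := h1 y
    rwa [Submodule.mkQ_apply, (Submodule.Quotient.mk_eq_zero _).2 (Submodule.mem_span_singleton_self y),
      norm_zero, abs_nonpos_iff] at this

lemma exists_weak_limit (r : ℕ → StrongDual ℝ V) {M : ℝ} (hr : ∀ k, ‖r k‖ ≤ M) :
    ∃ w : StrongDual ℝ V, ‖w‖ ≤ M ∧ ∀ x, Tendsto (fun k => r k x) (hyperfilter ℕ) (𝓝 (w x)) := by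
  obtain ⟨w, hw, hw'⟩ := (WeakDual.isCompact_closedBall (0 : StrongDual ℝ V) M).ultrafilter_le_nhds
    ((hyperfilter ℕ).map fun k => StrongDual.toWeakDual (r k)) (by
      rw [le_principal_iff, Ultrafilter.mem_coe, Ultrafilter.mem_map]
      exact univ_mem' fun k => by simpa using hr k)
  exact ⟨WeakDual.toStrongDual w, by simpa using hw,
    fun x => ((WeakDual.eval_continuous x).tendsto w).comp hw'⟩

end HB

variable {X Y : Type*} [NormedAddCommGroup X] [NormedSpace ℝ X] [NormedAddCommGroup Y]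
  [NormedSpace ℝ Y]

/-- Unit vectors with a supporting functional. -/
def NR (X : Type*) [NormedAddCommGroup X] [NormedSpace ℝ X] : Type _ :=
  {p : X × StrongDual ℝ X // ‖p.1‖ = 1 ∧ ‖p.2‖ ≤ 1 ∧ p.2 p.1 = 1}

/-- Every operator attains the supremum of its numerical range. -/
def Att (X : Type*) [NormedAddCommGroup X] [NormedSpace ℝ X] : Prop :=
  ∀ A : X →L[ℝ] X, ∃ a : NR X, ∀ b : NR X, b.1.2 (A b.1.1) ≤ a.1.2 (A a.1.1)

lemma NR.abs_le (a : NR X) (y : X) : |a.1.2 y| ≤ ‖y‖ := by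
  simpa using a.1.2.le_of_opNorm_le a.2.2.1 y

lemma NR.abs_le' (a : NR X) (A : X →L[ℝ] X) : |a.1.2 (A a.1.1)| ≤ ‖A‖ :=
  (a.abs_le _).trans (A.unit_le_opNorm _ a.2.1.le)

lemma NR.exists {x : X} (hx : ‖x‖ = 1) : ∃ a : NR X, a.1.1 = x := by
  obtain ⟨g, hg, hg'⟩ := exists_dual_vector'' ℝ x
  exact ⟨⟨(x, g), hx, hg, by simpa [hx] using hg'⟩, rfl⟩

lemma att_of_BS (T : X →L[ℝ] Y) (hT : ∀ x, ‖T x‖ = ‖x‖) (h : BhatiaSemrl T) : Att X := by
  obtain ⟨x₀, hx₀, -⟩ := h 0 fun t => by simp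
  obtain ⟨a₀, -⟩ := NR.exists hx₀
  have : Nonempty (NR X) := ⟨a₀⟩
  have hT1 : ‖T‖ ≤ 1 := T.opNorm_le_bound zero_le_one fun x => by simp [hT]
  intro A
  have hb : BddAbove (range fun b : NR X => b.1.2 (A b.1.1)) :=
    ⟨‖A‖, by rintro _ ⟨b, rfl⟩; exact (abs_le.1 (b.abs_le' A)).2⟩
  set s := ⨆ b : NR X, b.1.2 (A b.1.1)
  have h1 : ∀ (t : ℝ) (b : NR X), 1 + t * (b.1.2 (A b.1.1) - s) ≤
      ‖T + t • T.comp (A - s • ContinuousLinearMap.id ℝ X)‖ := fun t b => by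
    refine le_trans ?_ (ContinuousLinearMap.unit_le_opNorm _ b.1.1 b.2.1.le)
    have h2 : (T + t • T.comp (A - s • ContinuousLinearMap.id ℝ X)) b.1.1 =
        T (b.1.1 + t • (A b.1.1 - s • b.1.1)) := by simp
    rw [h2, hT]
    refine le_trans (le_of_eq ?_) (le_abs_self _ |>.trans (b.abs_le _))
    simp [b.2.2.2]
  obtain ⟨x, hx, -, h2⟩ := h (T.comp (A - s • ContinuousLinearMap.id ℝ X)) fun t => by
    refine hT1.trans ?_
    rcases le_or_gt t 0 with ht | ht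
    · exact le_trans (le_add_of_nonneg_right (mul_nonneg_of_nonpos_of_nonpos ht
        (sub_nonpos.2 (le_ciSup hb a₀)))) (h1 t a₀)
    · refine le_of_forall_pos_le_add fun η hη => ?_
      obtain ⟨b, hb'⟩ := exists_lt_of_lt_ciSup (sub_lt_self s (div_pos hη ht))
      have h3 := h1 t b
      have h4 : t * (η / t) = η := mul_div_cancel₀ _ ht.ne'
      nlinarith
  obtain ⟨g, hg1, hg2, hg3⟩ := exists_dual_of_BJ (x := x) (y := A x - s • x) fun t => by
    have := h2 t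
    rwa [ContinuousLinearMap.comp_apply, ← map_smul, ← map_add, hT, hT] at this
  refine ⟨⟨(x, g), hx, hg1, hg2.trans hx⟩, fun b => (le_ciSup hb b).trans (le_of_eq ?_)⟩
  rw [map_sub, map_smul, hg2, hx, smul_eq_mul, mul_one, sub_eq_zero] at hg3
  exact hg3.symm

theorem refl_of_att [CompleteSpace X] (h : Att X) :
    Function.Surjective (NormedSpace.inclusionInDoubleDual ℝ X) := by
  intro Ψ
  by_contra hΨ
  obtain ⟨⟨⟨y, g₀⟩, hy, -⟩, -⟩ := h 0
  replace hy : ‖y‖ = 1 := hy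
  let J := NormedSpace.inclusionInDoubleDual ℝ X
  have hiso : Isometry J := (NormedSpace.inclusionInDoubleDualLi ℝ (E := X)).isometry
  have hcl : IsClosed (range J) := hiso.isClosedEmbedding.isClosed_range
  obtain ⟨θ, hθ, hd⟩ := Metric.isOpen_iff.1 hcl.isOpen_compl Ψ hΨ
  have hd' : ∀ x, θ / 2 < ‖Ψ - J x‖ := fun x => by
    by_contra hlt
    refine hd (a := J x) ?_ (mem_range_self x)
    have h1 : dist Ψ (J x) = ‖Ψ - J x‖ := dist_eq_norm Ψ (J x)
    rw [Metric.mem_ball, dist_comm, h1]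
    linarith [not_lt.1 hlt]
  have hΨ0 : 0 < ‖Ψ‖ := by simpa using (half_pos hθ).trans (hd' 0)
  refine james_core (W := StrongDual ℝ X) (fun a : NR X => a.1.2 y • J a.1.1) (fun a f => ?_)
    (fun f => ?_) (fun r hr => ?_) {f | ‖f‖ ≤ 1 ∧ f y = 0 ∧ θ / 2 < Ψ f} ?_ (fun f hf => hf.1)
    (θ := θ / 2 / ‖Ψ‖ / 10) (by positivity) ?_ fun F hF => ?_
  · change |a.1.2 y * f a.1.1| ≤ _
    rw [abs_mul]
    have h1 := (a.abs_le y).trans hy.le
    have h2 : |f a.1.1| ≤ ‖f‖ := f.unit_le_opNorm _ a.2.1.le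
    nlinarith [abs_nonneg (a.1.2 y), abs_nonneg (f a.1.1)]
  · obtain ⟨a, ha⟩ := h (f.smulRight y)
    exact ⟨a, fun b => by simpa [J, mul_comm] using ha b⟩
  · obtain ⟨w, -, hw⟩ := exists_weak_limit r hr
    exact ⟨w, fun a => (hw a.1.1).const_mul (a.1.2 y)⟩
  · have := (convex_closedBall (0 : StrongDual ℝ X) 1).inter
      ((convex_hyperplane (J y : StrongDual ℝ X →ₗ[ℝ] ℝ).isLinear 0).inter
      (convex_halfSpace_gt (Ψ : StrongDual ℝ X →ₗ[ℝ] ℝ).isLinear (θ / 2)))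
    intro f hf g hg s t hs ht hst
    have h1 := this (x := f) ⟨by simpa using hf.1, hf.2⟩ (y := g) ⟨by simpa using hg.1, hg.2⟩
      hs ht hst
    exact ⟨by simpa using h1.1, h1.2⟩
  · rintro f ⟨-, hf1, hf2⟩
    have h1 : θ / 2 / ‖Ψ‖ < ‖f‖ := by
      rw [div_lt_iff₀' hΨ0]
      exact hf2.trans_le ((le_abs_self _).trans (Ψ.le_opNorm f))
    obtain ⟨x, hx, hx'⟩ : ∃ x, ‖x‖ < 1 ∧ θ / 2 / ‖Ψ‖ < f x := by
      obtain ⟨x, hx, hx'⟩ := f.exists_lt_apply_of_lt_opNorm h1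
      rcases lt_abs.1 hx' with h2 | h2
      · exact ⟨x, hx, h2⟩
      · exact ⟨-x, by simpa using hx, by simpa using h2⟩
    set z := y + (1 / 4 : ℝ) • x with hz
    have hx4 : ‖(1 / 4 : ℝ) • x‖ ≤ 1 / 4 := by
      rw [norm_smul, Real.norm_of_nonneg (by norm_num)]
      linarith
    have h2 : ‖z‖ ≤ 5 / 4 := (norm_add_le _ _).trans (by linarith)
    have h3 : 3 / 4 ≤ ‖z‖ := by
      have := norm_sub_le z ((1 / 4 : ℝ) • x)
      rw [hz, add_sub_cancel_right] at this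
      linarith
    have h4 : 0 < ‖z‖ := by linarith
    obtain ⟨a, ha⟩ := NR.exists (x := ‖z‖⁻¹ • z) (norm_smul_inv_norm (norm_pos_iff.1 h4))
    refine ⟨a, ?_⟩
    change _ < a.1.2 y * f a.1.1
    have h5 : a.1.2 z = ‖z‖ := by
      have := a.2.2.2
      rw [ha, map_smul, smul_eq_mul, inv_mul_eq_one₀ h4.ne'] at this
      exact this.symm
    have h6 : 1 / 2 ≤ a.1.2 y := by
      have := (abs_le.1 ((a.abs_le _).trans hx4)).2
      rw [hz, map_add] at h5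
      linarith
    have h7 : θ / 2 / ‖Ψ‖ / 5 < f a.1.1 := by
      rw [ha, map_smul, hz, map_add, hf1, map_smul, ← hz, smul_eq_mul, smul_eq_mul, zero_add,
        inv_mul_eq_div, lt_div_iff₀ h4]
      have : 0 < θ / 2 / ‖Ψ‖ := by positivity
      nlinarith
    have : 0 < θ / 2 / ‖Ψ‖ := by positivity
    nlinarith
  · have := hF.to_subtype
    obtain ⟨f, h1, h2, h3⟩ := exists_of_dist Ψ
      (fun o : Option F => J (o.elim y fun a => a.1.1.1)) (θ := θ / 2) fun u hu => by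
        have : u ∈ LinearMap.range (J : X →ₗ[ℝ] _) :=
          (Submodule.span_le.2 (by rintro _ ⟨o, rfl⟩; exact ⟨_, rfl⟩)) hu
        obtain ⟨x, rfl⟩ := this
        exact hd' x
    refine ⟨f, ⟨h1, h3 none, h2⟩, fun a ha => ?_⟩
    change a.1.2 y * f a.1.1 = 0
    rw [show f a.1.1 = 0 from h3 (some ⟨a, ha⟩), mul_zero]

end Pool.Agent.Lib.MP_43cf21_an
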